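import Mathlib
import Pool.Agent.H14.Csf

set_option autoImplicit false

namespace Pool.Agent.Results.MP_fedadc_co.PositiveCoeff

open MvPolynomial

/-- A tree of maximum degree 4 with a connected partition of every type. -/
def CPET {n : ℕ} (T : SimpleGraph (Fin n)) [DecidableRel T.Adj] : Prop :=
  T.IsTree ∧ T.maxDegree = 4 ∧ ∀ p : Nat.Partition n,
    ∃ P : Finpartition (Finset.univ : Finset (Fin n)),
      (∀ B ∈ P.parts, (T.induce (B : Set (Fin n))).Connected) ∧
        P.parts.val.map Finset.card = p.parts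

/-- The chromatic symmetric function of a graph on `n` vertices, in `n` variables. -/
noncomputable def csf {n : ℕ} (T : SimpleGraph (Fin n)) [DecidableRel T.Adj] :
    MvPolynomial (Fin n) ℚ :=
  ∑ κ ∈ Finset.univ.filter fun κ : Fin n → Fin n => ∀ u v, T.Adj u v → κ u ≠ κ v, ∏ v, X (κ v)

theorem csf_symm {n : ℕ} (T : SimpleGraph (Fin n)) [DecidableRel T.Adj] :
    (csf T).IsSymmetric := by
  intro e
  unfold csf
  simp only [map_sum, map_prod, rename_X]
  refine Finset.sum_equiv (Equiv.arrowCongr (Equiv.refl _) e) (fun κ => ?_) fun κ _ => rfl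
  simp

theorem csf_hom {n : ℕ} (T : SimpleGraph (Fin n)) [DecidableRel T.Adj] :
    (csf T).IsHomogeneous n := by
  refine IsHomogeneous.sum _ _ _ fun κ _ => ?_
  simpa using IsHomogeneous.prod Finset.univ (fun v : Fin n => (X (κ v) : MvPolynomial (Fin n) ℚ))
    (fun _ => 1) fun i _ => isHomogeneous_X _ _

/-- A CPET tree of odd order (the spider `S(15, 12, 2, 1)`) whose chromatic symmetric function has
a positive coefficient (namely `7`) at `e_{(3, 2^{(n-3)/2})}`. -/
theorem result : ∃ (n : ℕ) (T : SimpleGraph (Fin n)) (_ : DecidableRel T.Adj), CPET T ∧ Odd n ∧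
    ∃ μ : n.Partition, μ.parts = 3 ::ₘ Multiset.replicate ((n - 3) / 2) 2 ∧
      (∃ c : n.Partition → ℚ, csf T = ∑ ν, c ν • esymmPart (Fin n) ℚ ν) ∧
      ∀ c : n.Partition → ℚ, csf T = ∑ ν, c ν • esymmPart (Fin n) ℚ ν → 0 < c μ := by
  refine ⟨31, H14.Spider31.G, inferInstance,
    ⟨H14.Spider31.tree, H14.Spider31.maxdeg, H14.Spider31.every_type⟩, by decide,
    ⟨3 ::ₘ Multiset.replicate 14 2, fun h => ?_, by decide⟩, rfl,
    H14.Csf.exists_expansion _ _ (csf_symm _) (csf_hom _), fun c hc => ?_⟩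
  · rw [Multiset.mem_cons, Multiset.mem_replicate] at h
    omega
  have h := congrArg (fun p => (aeval H14.Csf.x0 p).snd) hc
  simp only [csf, map_sum, map_prod, aeval_X, H14.Csf.eval_csf, map_smul, TrivSqZeroExt.snd_sum,
    TrivSqZeroExt.snd_smul, H14.Csf.part_x0] at h
  rw [Finset.sum_eq_single ⟨3 ::ₘ Multiset.replicate 14 2, fun h => by
    rw [Multiset.mem_cons, Multiset.mem_replicate] at h; omega, by decide⟩, if_pos rfl] at h
  · change (14 : ℚ) = _ * 2 at h
    linarith
  · intro ν _ hν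
    rw [if_neg fun e => hν (Nat.Partition.ext e), smul_zero]
  · simp

end Pool.Agent.Results.MP_fedadc_co.PositiveCoeff
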